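import Pool.Agent.H73.PHS.Stmts

/-! Board phs, rows IT1 and IPB (helper86). -/

set_option autoImplicit false

open Set Filter Topology MeasureTheory Metric

namespace Pool.PHS

theorem IT1_thm (hLIM : LIMStmt) : IT1Stmt := by
  intro n Ω l f hO hb hd hm
  have hc : IsCompact (closure Ω) := hb.isCompact_closure
  have hex : ∀ z, z ∈ Ω → ∃ y, y ∈ closure Ω ∧ Tendsto (fun k => f k z) (l : Filter ℕ) (𝓝 y) := by
    intro z hz
    obtain ⟨y, hy, hle⟩ := hc.ultrafilter_le_nhds' (l.map (fun k => f k z)) (by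
      rw [Ultrafilter.mem_map]
      exact Filter.univ_mem' (fun k => hm k hz))
    exact ⟨y, hy, hle⟩
  choose! g hg using hex
  obtain ⟨M, hM⟩ := hc.isBounded.exists_norm_le
  obtain ⟨h1, h2⟩ := hLIM n Ω l f g M l.neBot hO hd (fun k z hz => hM _ (hm k hz))
    (fun z hz => (hg z hz).2)
  exact ⟨g, h1, fun z hz => (hg z hz).1, h2⟩

theorem IPB_thm : IPBStmt := by
  intro n ρ x _ h0 hne δ hδ
  by_contra hcon
  push Not at hcon
  apply hne
  have hmax : IsLocalMax ρ x := by
    filter_upwards [Metric.ball_mem_nhds x hδ] with y hy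
    rw [h0]
    exact hcon y (by rwa [Metric.mem_ball, dist_eq_norm] at hy)
  exact hmax.fderiv_eq_zero

end Pool.PHS
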