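import Pool.Agent.H73.PHS.Stmts
import Pool.Agent.H88.RSE.Pomp

/-! Board phs, row PMP (helper86): the formula of Cauchy-Pompeiu. -/

set_option autoImplicit false

open Set Filter Topology MeasureTheory Metric

namespace Pool.PHS

/-- a continuous function with compact support divided by `ζ` is integrable -/
theorem PMP_int (D : ℂ → ℂ) (hD : Continuous D) (R : ℝ) (hR : ∀ ζ, R < ‖ζ‖ → D ζ = 0) :
    Integrable (fun ζ : ℂ => D ζ / ζ) := by
  obtain ⟨M, hM⟩ := (isCompact_closedBall (0 : ℂ) R).exists_bound_of_continuousOn hD.continuousOn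
  have hM0 : ∀ ζ, ‖D ζ‖ ≤ max M 0 := by
    intro ζ
    by_cases h : ‖ζ‖ ≤ R
    · exact (hM ζ (by simpa using h)).trans (le_max_left _ _)
    · rw [hR ζ (not_le.1 h), norm_zero]
      exact le_max_right _ _
  have h1 : Integrable (fun ζ : ℂ => (Iic R).indicator (fun y : ℝ => max M 0 * y⁻¹) ‖ζ‖) := by
    rw [integrable_fun_norm_addHaar (μ := (volume : Measure ℂ))
      (f := (Iic R).indicator (fun y : ℝ => max M 0 * y⁻¹))]
    have e : EqOn (fun y : ℝ => y ^ (Module.finrank ℝ ℂ - 1) •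
        (Iic R).indicator (fun y : ℝ => max M 0 * y⁻¹) y)
        ((Iic R).indicator (fun _ : ℝ => max M 0)) (Ioi 0) := by
      intro y hy
      have hy' : y ≠ 0 := ne_of_gt hy
      simp only [Complex.finrank_real_complex, smul_eq_mul]
      by_cases h : y ∈ Iic R
      · rw [indicator_of_mem h, indicator_of_mem h]
        have e2 : 2 - 1 = 1 := rfl
        rw [e2, pow_one]
        field_simp
      · rw [indicator_of_notMem h, indicator_of_notMem h, mul_zero]
    rw [integrableOn_congr_fun e measurableSet_Ioi]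
    rw [IntegrableOn, integrable_indicator_iff measurableSet_Iic, IntegrableOn,
      Measure.restrict_restrict measurableSet_Iic]
    have : Iic R ∩ Ioi 0 ⊆ Icc 0 R := fun y hy => ⟨le_of_lt hy.2, hy.1⟩
    exact (integrableOn_const (by
      exact ((measure_mono this).trans_lt (by simp)).ne))
  refine h1.mono (hD.measurable.div measurable_id).aestronglyMeasurable (ae_of_all _ ?_)
  intro ζ
  by_cases h : ‖ζ‖ ≤ R
  · rw [indicator_of_mem (by exact h), norm_div, div_eq_mul_inv, norm_mul, norm_inv, norm_norm]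
    exact mul_le_mul_of_nonneg_right ((hM0 ζ).trans (le_abs_self _)) (by positivity)
  · rw [hR ζ (not_le.1 h)]
    simp

theorem PMP_thm : PMPStmt := by
  intro g hg hc z
  set gr : ℂ → ℝ := fun ζ => (g (z + ζ)).re with hgr
  set gi : ℂ → ℝ := fun ζ => (g (z + ζ)).im with hgi
  have hgz : ContDiff ℝ 1 (fun ζ => g (z + ζ)) := hg.comp (contDiff_const.add contDiff_id)
  have hcz : HasCompactSupport (fun ζ => g (z + ζ)) := hc.comp_homeomorph (Homeomorph.addLeft z)
  have cr : ContDiff ℝ 1 gr := Complex.reCLM.contDiff.comp hgz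
  have ci : ContDiff ℝ 1 gi := Complex.imCLM.contDiff.comp hgz
  have sr : HasCompactSupport gr := hcz.comp_left (g := Complex.re) rfl
  have si : HasCompactSupport gi := hcz.comp_left (g := Complex.im) rfl
  have hfd : ∀ ζ, HasFDerivAt (fun ζ => g (z + ζ)) (fderiv ℝ g (z + ζ)) ζ := by
    intro ζ
    have h1 : HasFDerivAt g (fderiv ℝ g (z + ζ)) (z + ζ) :=
      (hg.differentiable (by norm_num)).differentiableAt.hasFDerivAt
    have h2 := h1.comp ζ ((hasFDerivAt_id ζ).const_add z)
    rw [ContinuousLinearMap.comp_id] at h2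
    exact h2
  have fr : ∀ ζ v, fderiv ℝ gr ζ v = (fderiv ℝ g (z + ζ) v).re := by
    intro ζ v
    have h := (Complex.reCLM.hasFDerivAt.comp ζ (hfd ζ)).fderiv
    have e : fderiv ℝ gr ζ = fderiv ℝ (Complex.reCLM ∘ fun ζ => g (z + ζ)) ζ := rfl
    rw [e, h]
    rfl
  have fi : ∀ ζ v, fderiv ℝ gi ζ v = (fderiv ℝ g (z + ζ) v).im := by
    intro ζ v
    have h := (Complex.imCLM.hasFDerivAt.comp ζ (hfd ζ)).fderiv
    have e : fderiv ℝ gi ζ = fderiv ℝ (Complex.imCLM ∘ fun ζ => g (z + ζ)) ζ := rfl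
    rw [e, h]
    rfl
  have hint : ∀ χ : ℂ → ℝ, ContDiff ℝ 1 χ → HasCompactSupport χ →
      Integrable (fun ζ : ℂ => (((fderiv ℝ χ ζ 1 : ℝ) : ℂ) +
        Complex.I * ((fderiv ℝ χ ζ Complex.I : ℝ) : ℂ)) / ζ) := by
    intro χ h hs
    have hcf : Continuous (fderiv ℝ χ) := h.continuous_fderiv (by norm_num)
    obtain ⟨R, hR⟩ := hs.isCompact.isBounded.subset_closedBall 0
    refine PMP_int _ ?_ R ?_
    · exact (Complex.continuous_ofReal.comp (hcf.clm_apply continuous_const)).add
        (continuous_const.mul (Complex.continuous_ofReal.comp (hcf.clm_apply continuous_const)))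
    · intro ζ hζ
      have : fderiv ℝ χ ζ = 0 := by
        apply image_eq_zero_of_notMem_tsupport
        intro hmem
        have h1 := hR (tsupport_fderiv_subset ℝ hmem)
        rw [mem_closedBall_zero_iff] at h1
        linarith
      rw [this]
      simp
  have key : (fun ζ : ℂ => (fderiv ℝ g (z + ζ) 1 + Complex.I * fderiv ℝ g (z + ζ) Complex.I) / ζ) =
      fun ζ : ℂ => (((fderiv ℝ gr ζ 1 : ℝ) : ℂ) + Complex.I * ((fderiv ℝ gr ζ Complex.I : ℝ) : ℂ)) / ζ +
        Complex.I * ((((fderiv ℝ gi ζ 1 : ℝ) : ℂ) +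
          Complex.I * ((fderiv ℝ gi ζ Complex.I : ℝ) : ℂ)) / ζ) := by
    funext ζ
    rw [fr, fr, fi, fi]
    have e1 : fderiv ℝ g (z + ζ) 1 = ((fderiv ℝ g (z + ζ) 1).re : ℂ) +
        Complex.I * ((fderiv ℝ g (z + ζ) 1).im : ℂ) := by
      rw [mul_comm]; exact (Complex.re_add_im _).symm
    have e2 : fderiv ℝ g (z + ζ) Complex.I = ((fderiv ℝ g (z + ζ) Complex.I).re : ℂ) +
        Complex.I * ((fderiv ℝ g (z + ζ) Complex.I).im : ℂ) := by
      rw [mul_comm]; exact (Complex.re_add_im _).symm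
    conv_lhs => rw [e1, e2]
    ring
  rw [key, integral_add (hint gr cr sr) ((hint gi ci si).const_mul _), integral_const_mul,
    Pool.RSE.pompeiu0 gr cr sr, Pool.RSE.pompeiu0 gi ci si]
  have e0 : g z = ((g z).re : ℂ) + Complex.I * ((g z).im : ℂ) := by
    rw [mul_comm]; exact (Complex.re_add_im _).symm
  conv_rhs => rw [e0]
  simp only [hgr, hgi, add_zero]
  push_cast
  ring

end Pool.PHS
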